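import Mathlib

set_option autoImplicit false

/-!
# An extension of the logics of all finite powers of `ω` without the finite model property
-/

namespace Pool.Agent.Results.MP_1909e4_lc.NoFMP

/-- unimodal formulas -/
inductive Form : Type
  | var (i : ℕ)
  | bot
  | imp (φ ψ : Form)
  | box (φ : Form)

/-- truth of a formula at a point of a frame under a valuation -/
def Sat {W : Type} (R : W → W → Prop) (V : ℕ → W → Prop) : W → Form → Prop
  | x, .var i => V i x
  | _, .bot => False
  | x, .imp φ ψ => Sat R V x φ → Sat R V x ψ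
  | x, .box φ => ∀ y, R x y → Sat R V y φ

/-- the logic of a frame -/
def Log {W : Type} (R : W → W → Prop) : Set Form := {φ | ∀ V x, Sat R V x φ}

/-- substitution of formulas for the variables -/
def Form.subst (s : ℕ → Form) : Form → Form
  | .var i => s i
  | .bot => .bot
  | .imp φ ψ => .imp (φ.subst s) (ψ.subst s)
  | .box φ => .box (φ.subst s)

/-- instances of classical propositional tautologies -/
def Tautology (φ : Form) : Prop :=
  ∀ v : Form → Prop, ¬ v .bot → (∀ α β, v (.imp α β) ↔ (v α → v β)) → v φ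

/-- normal modal logics -/
structure Normal (L : Set Form) : Prop where
  taut : ∀ φ, Tautology φ → φ ∈ L
  distr : ∀ φ ψ, Form.imp (.box (.imp φ ψ)) (.imp (.box φ) (.box ψ)) ∈ L
  mp : ∀ φ ψ, Form.imp φ ψ ∈ L → φ ∈ L → ψ ∈ L
  nec : ∀ φ, φ ∈ L → Form.box φ ∈ L
  subst : ∀ φ, φ ∈ L → ∀ s : ℕ → Form, φ.subst s ∈ L

/-- the finite model property: every formula outside the logic is refuted in some finite frame which
validates the logic -/
def FMP (L : Set Form) : Prop :=
  ∀ φ, φ ∉ L → ∃ (W : Type) (_ : Finite W) (R : W → W → Prop), L ⊆ Log R ∧ φ ∉ Log R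

/-! ### logics of frames are normal -/

lemma sat_subst {W : Type} (R : W → W → Prop) (V : ℕ → W → Prop) (s : ℕ → Form) (φ : Form) :
    ∀ x, Sat R V x (φ.subst s) ↔ Sat R (fun i y => Sat R V y (s i)) x φ := by
  induction φ with
  | var i => intro x; rfl
  | bot => intro x; rfl
  | imp φ ψ ih1 ih2 =>
    intro x
    show (_ → _) ↔ (_ → _)
    rw [ih1, ih2]
  | box φ ih =>
    intro x
    exact forall₂_congr fun y _ => ih y

lemma normal_log {W : Type} (R : W → W → Prop) : Normal (Log R) where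
  taut φ h V x := h (fun ψ => Sat R V x ψ) (fun h => h) (fun α β => Iff.rfl)
  distr φ ψ V x h1 h2 y hy := h1 y hy (h2 y hy)
  mp φ ψ h1 h2 V x := h1 V x (h2 V x)
  nec φ h V x y _ := h V y
  subst φ h s V x := (sat_subst R V s φ x).2 (h _ x)

/-! ### defined connectives -/

/-- negation -/
def neg (φ : Form) : Form := .imp φ .bot
/-- conjunction -/
def con (φ ψ : Form) : Form := neg (.imp φ (neg ψ))
/-- possibility -/
def dia (φ : Form) : Form := neg (.box (neg φ))

section
variable {W : Type} {R : W → W → Prop} {V : ℕ → W → Prop} {x : W} {φ ψ : Form}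

@[simp] lemma sat_neg : Sat R V x (neg φ) ↔ ¬ Sat R V x φ := Iff.rfl
@[simp] lemma sat_con : Sat R V x (con φ ψ) ↔ Sat R V x φ ∧ Sat R V x ψ := by
  show ¬ (_ → ¬ _) ↔ _
  tauto
@[simp] lemma sat_dia : Sat R V x (dia φ) ↔ ∃ y, R x y ∧ Sat R V y φ := by
  show ¬ (∀ y, R x y → ¬ _) ↔ _
  push Not
  rfl
@[simp] lemma sat_box : Sat R V x (.box φ) ↔ ∀ y, R x y → Sat R V y φ := Iff.rfl
@[simp] lemma sat_imp : Sat R V x (.imp φ ψ) ↔ (Sat R V x φ → Sat R V x ψ) := Iff.rfl
@[simp] lemma sat_var (i : ℕ) : Sat R V x (.var i) ↔ V i x := Iff.rfl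
end

/-! ### the frame -/

/-- the points of the frame: a top, a ladder and six points `f (i, j)`, `i + j ≤ 2` -/
inductive G : Type
  | top
  | w (n : ℕ)
  | f (p : {p : ℕ × ℕ // p.1 + p.2 ≤ 2})

/-- the order of the frame: the six points see the ladder and the top -/
def S : G → G → Prop
  | _, .top => True
  | .top, _ => False
  | .w n, .w m => n = m ∨ m + 2 ≤ n
  | .w _, .f _ => False
  | .f _, .w _ => True
  | .f p, .f q => p.1.1 ≤ q.1.1 ∧ p.1.2 ≤ q.1.2

@[simp] lemma S_top (x : G) : S x .top := by cases x <;> trivial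
@[simp] lemma top_w (n : ℕ) : ¬ S .top (.w n) := fun h => h
@[simp] lemma top_f (p) : ¬ S .top (.f p) := fun h => h
@[simp] lemma w_w (n m : ℕ) : S (.w n) (.w m) ↔ n = m ∨ m + 2 ≤ n := Iff.rfl
@[simp] lemma w_f (n : ℕ) (p) : ¬ S (.w n) (.f p) := fun h => h
@[simp] lemma f_w (n : ℕ) (p) : S (.f p) (.w n) := trivial
@[simp] lemma f_f (p q) : S (.f p) (.f q) ↔ p.1.1 ≤ q.1.1 ∧ p.1.2 ≤ q.1.2 := Iff.rfl

lemma S_refl (x : G) : S x x := by
  cases x <;> simp

lemma S_trans {x y z : G} (h1 : S x y) (h2 : S y z) : S x z := by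
  cases x <;> cases y <;> cases z <;> simp_all <;> omega

/-! ### the logic of the frame contains the logics of the powers of `ω` -/

/-- the maps of the plane to the frame -/
def fN (N i j : ℕ) : G :=
  if h : i + j ≤ 2 then .f ⟨(i, j), h⟩ else if 2 * i + 3 * j ≤ N then .w (N - (2 * i + 3 * j)) else .top

lemma fN_mono {N i j i' j' : ℕ} (hi : i ≤ i') (hj : j ≤ j') : S (fN N i j) (fN N i' j') := by
  unfold fN
  split_ifs <;> simp <;> omega

lemma fN_back {N i j : ℕ} {v : G} (h : S (fN N i j) v) (hv : ∀ m, v = .w m → i + j ≤ 2 → m + 13 ≤ N) :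
    ∃ i' j', i ≤ i' ∧ j ≤ j' ∧ fN N i' j' = v := by
  cases v with
  | top =>
    refine ⟨i + N + 3, j, by omega, le_rfl, ?_⟩
    unfold fN
    rw [dif_neg (by omega), if_neg (by omega)]
  | w m =>
    by_cases h1 : i + j ≤ 2
    · have h2 := hv m rfl h1
      rcases Nat.even_or_odd (N - m) with ⟨c, hc⟩ | ⟨c, hc⟩
      · refine ⟨c - 3, 2, by omega, by omega, ?_⟩
        unfold fN
        rw [dif_neg (by omega), if_pos (by omega)]
        congr 1
        omega
      · refine ⟨c - 4, 3, by omega, by omega, ?_⟩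
        unfold fN
        rw [dif_neg (by omega), if_pos (by omega)]
        congr 1
        omega
    · unfold fN at h
      rw [dif_neg h1] at h
      split_ifs at h with h2
      · rw [w_w] at h
        rcases h with h | h
        · refine ⟨i, j, le_rfl, le_rfl, ?_⟩
          unfold fN
          rw [dif_neg h1, if_pos h2, h]
        · rcases Nat.even_or_odd (N - (2 * i + 3 * j) - m) with ⟨c, hc⟩ | ⟨c, hc⟩
          · refine ⟨i + c, j, by omega, by omega, ?_⟩
            unfold fN
            rw [dif_neg (by omega), if_pos (by omega)]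
            congr 1
            omega
          · refine ⟨i + (c - 1), j + 1, by omega, by omega, ?_⟩
            unfold fN
            rw [dif_neg (by omega), if_pos (by omega)]
            congr 1
            omega
      · exact absurd h (top_w m)
  | f p =>
    by_cases h1 : i + j ≤ 2
    · unfold fN at h
      rw [dif_pos h1, f_f] at h
      refine ⟨p.1.1, p.1.2, h.1, h.2, ?_⟩
      unfold fN
      rw [dif_pos p.2]
    · unfold fN at h
      rw [dif_neg h1] at h
      split_ifs at h
      · exact absurd h (w_f _ _)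
      · exact absurd h (top_f _)

section power

variable {n : ℕ} (hn : 2 ≤ n)

/-- the order of the power of `ω` -/
def Ord (n : ℕ) (x y : Fin n → ℕ) : Prop := ∀ i, x i ≤ y i

/-- the map of the power to the frame -/
def pN (N : ℕ) (x : Fin n → ℕ) : G := fN N (x ⟨0, by omega⟩) (x ⟨1, by omega⟩)

lemma pN_back {N : ℕ} {x : Fin n → ℕ} {v : G} (h : S (pN hn N x) v)
    (hv : ∀ m, v = .w m → x ⟨0, by omega⟩ + x ⟨1, by omega⟩ ≤ 2 → m + 13 ≤ N) :
    ∃ y, Ord n x y ∧ pN hn N y = v := by
  obtain ⟨i', j', h1, h2, h3⟩ := fN_back h hv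
  refine ⟨fun k => if k = ⟨0, by omega⟩ then i' else if k = ⟨1, by omega⟩ then j' else x k, ?_, ?_⟩
  · intro k
    show _ ≤ ite _ _ _
    split_ifs with h4 h5
    · rw [h4]; exact h1
    · rw [h5]; exact h2
    · exact le_rfl
  · rw [← h3]
    simp [pN]

lemma truth (V : ℕ → G → Prop) (φ : Form) : ∃ M : ℕ, ∀ N, M ≤ N → ∀ x : Fin n → ℕ,
    (Sat (Ord n) (fun i y => V i (pN hn N y)) x φ ↔ Sat S V (pN hn N x) φ) := by
  induction φ with
  | var i => exact ⟨0, fun N _ x => Iff.rfl⟩
  | bot => exact ⟨0, fun N _ x => Iff.rfl⟩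
  | imp φ ψ ih1 ih2 =>
    obtain ⟨M1, h1⟩ := ih1
    obtain ⟨M2, h2⟩ := ih2
    refine ⟨max M1 M2, fun N hN x => ?_⟩
    rw [sat_imp, sat_imp, h1 N ((le_max_left _ _).trans hN), h2 N ((le_max_right _ _).trans hN)]
  | box φ ih =>
    obtain ⟨M1, h1⟩ := ih
    obtain ⟨m0, hm0⟩ : ∃ m0, (∃ m, ¬ Sat S V (.w m) φ) → ¬ Sat S V (.w m0) φ := by
      by_cases h : ∃ m, ¬ Sat S V (.w m) φ
      · obtain ⟨m, hm⟩ := h
        exact ⟨m, fun _ => hm⟩
      · exact ⟨0, fun h' => absurd h' h⟩
    refine ⟨M1 + (m0 + 13), fun N hN x => ?_⟩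
    rw [sat_box, sat_box]
    constructor
    · intro h v hv
      by_cases h2 : ∀ m, v = .w m → x ⟨0, by omega⟩ + x ⟨1, by omega⟩ ≤ 2 → m + 13 ≤ N
      · obtain ⟨y, hy, rfl⟩ := pN_back hn hv h2
        exact (h1 N (by omega) y).1 (h y hy)
      · push Not at h2
        obtain ⟨m, rfl, h3, h4⟩ := h2
        by_contra h5
        have h6 := hm0 ⟨m, h5⟩
        have h7 : S (pN hn N x) (.w m0) := by
          unfold pN fN
          rw [dif_pos h3]
          exact f_w _ _
        obtain ⟨y, hy, hy2⟩ := pN_back hn h7 (fun m hm _ => by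
          rw [G.w.injEq] at hm
          omega)
        have h8 := (h1 N (by omega) y).1 (h y hy)
        rw [hy2] at h8
        exact h6 h8
    · intro h y hy
      exact (h1 N (by omega) y).2 (h _ (fN_mono (hy _) (hy _)))

include hn in
lemma log_power : Log (Ord n) ⊆ Log S := by
  intro φ hφ V v
  obtain ⟨M, hM⟩ := truth hn V φ
  obtain ⟨N, hN, x, hx⟩ : ∃ N, M ≤ N ∧ ∃ x : Fin n → ℕ, pN hn N x = v := by
    cases v with
    | top =>
      obtain ⟨y, -, hy⟩ := pN_back hn (N := M) (x := fun _ => 0) (v := .top) (S_top _)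
        (fun m hm => by cases hm)
      exact ⟨M, le_rfl, y, hy⟩
    | w m =>
      obtain ⟨y, -, hy⟩ := pN_back hn (N := M + m + 13) (x := fun _ => 0) (v := .w m) (f_w _ _)
        (fun m' hm _ => by
          rw [G.w.injEq] at hm
          omega)
      exact ⟨_, by omega, y, hy⟩
    | f p =>
      obtain ⟨y, -, hy⟩ := pN_back hn (N := M) (x := fun _ => 0) (v := .f p)
        (by simp [pN, fN]) (fun m hm => by cases hm)
      exact ⟨M, le_rfl, y, hy⟩
  rw [← hx]
  exact (hM N hN x).1 (hφ _ x)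

end power

/-! ### the formulas -/

/-- the formulas describing the ladder -/
def sig : ℕ → Form
  | 0 => .var 0
  | 1 => .var 1
  | 2 => con (neg (.var 0)) (con (dia (.var 0)) (neg (dia (.var 1))))
  | n + 3 => con (neg (sig (n + 1))) (con (dia (sig (n + 1))) (con (dia (sig n))
      (neg (dia (sig (n + 2))))))

/-- the formula which is satisfied only below the ladder -/
def beta : Form :=
  con (.box (.imp (.var 0) (neg (dia (.var 1)))))
  (con (.box (.imp (.var 1) (neg (dia (.var 0)))))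
  (con (dia (con (.var 2) (con (neg (dia (.var 3))) (con (neg (dia (.var 4)))
    (con (dia (sig 0)) (con (dia (sig 1)) (dia (sig 2))))))))
  (con (dia (con (.var 3) (con (neg (dia (.var 2))) (neg (dia (.var 4))))))
  (dia (con (.var 4) (con (neg (dia (.var 2))) (neg (dia (.var 3)))))))))

lemma antichain {y1 y2 y3 : G} (h12 : ¬ S y1 y2) (h13 : ¬ S y1 y3) (h21 : ¬ S y2 y1)
    (h23 : ¬ S y2 y3) (h31 : ¬ S y3 y1) (h32 : ¬ S y3 y2) :
    ∃ p, y1 = .f p ∧ p.1.1 + p.1.2 = 2 := by
  cases y1 with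
  | top => exact absurd (S_top _) h21
  | w a =>
    cases y2 with
    | top => exact absurd (S_top _) h12
    | w b =>
      cases y3 with
      | top => exact absurd (S_top _) h13
      | w c => simp at h12 h13 h21 h23 h31 h32; omega
      | f q => exact absurd (f_w _ _) h31
    | f q => exact absurd (f_w _ _) h21
  | f p =>
    cases y2 with
    | top => exact absurd (S_top _) h12
    | w b => exact absurd (f_w _ _) h12
    | f q =>
      cases y3 with
      | top => exact absurd (S_top _) h13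
      | w c => exact absurd (f_w _ _) h13
      | f r =>
        refine ⟨p, rfl, ?_⟩
        have hp := p.2
        have hq := q.2
        have hr := r.2
        simp only [f_f, not_and_or, not_le] at h12 h13 h21 h23 h31 h32
        omega

/-- Wherever `beta` holds, the formulas `sig m` single out consecutive points of the ladder. -/
lemma key {V : ℕ → G → Prop} {x : G} (h : Sat S V x beta) :
    (∀ m, S x (.w m)) ∧ ∃ a : ℕ, ∀ m z, S x z → (Sat S V z (sig m) ↔ z = .w (a + m)) := by
  simp only [beta, sat_con, sat_box, sat_imp, sat_neg, sat_dia, sat_var, not_exists, not_and,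
    sig] at h
  obtain ⟨h0, h1, ⟨y1, hx1, hq1, h12, h13, ⟨s0, ys0, hs0⟩, ⟨s1, ys1, hs1⟩, s2, ys2, hs2, ⟨d, hd, hd0⟩,
    hs2'⟩, ⟨y2, hx2, hq2, h21, h23⟩, y3, hx3, hq3, h31, h32⟩ := h
  obtain ⟨p, rfl, hp⟩ := antichain (fun h => h12 _ h hq2) (fun h => h13 _ h hq3)
    (fun h => h21 _ h hq1) (fun h => h23 _ h hq3) (fun h => h31 _ h hq1) (fun h => h32 _ h hq2)
  have hmax : ∀ q, S (.f p) (.f q) → q = p := by
    intro q hq
    have := q.2
    rw [f_f] at hq
    exact Subtype.ext (Prod.ext (by omega) (by omega))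
  have hxw : ∀ m, S x (.w m) := fun m => S_trans hx1 (f_w _ _)
  -- the two points of the valuation
  obtain ⟨i1, rfl⟩ : ∃ i, s1 = .w i := by
    cases s1 with
    | top => exact absurd hs1 (h0 s0 (S_trans hx1 ys0) hs0 _ (S_top _))
    | w i => exact ⟨i, rfl⟩
    | f q =>
      rw [hmax q ys1] at hs1
      exact absurd hs0 (h1 _ hx1 hs1 _ ys0)
  obtain ⟨i0, rfl⟩ : ∃ i, s0 = .w i := by
    cases s0 with
    | top => exact absurd hs0 (h1 _ (S_trans hx1 ys1) hs1 _ (S_top _))
    | w i => exact ⟨i, rfl⟩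
    | f q =>
      rw [hmax q ys0] at hs0
      exact absurd hs1 (h0 _ hx1 hs0 _ ys1)
  have w0 : ∀ z, S x z → V 0 z → ∃ i, z = .w i := by
    intro z hz h2
    cases z with
    | top => exact absurd h2 (h1 _ (hxw _) hs1 _ (S_top _))
    | w i => exact ⟨i, rfl⟩
    | f q => exact absurd hs1 (h0 _ hz h2 _ (f_w _ _))
  have w1 : ∀ z, S x z → V 1 z → ∃ i, z = .w i := by
    intro z hz h2
    cases z with
    | top => exact absurd h2 (h0 _ (hxw _) hs0 _ (S_top _))
    | w i => exact ⟨i, rfl⟩
    | f q => exact absurd hs0 (h1 _ hz h2 _ (f_w _ _))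
  have inc : ∀ i j, V 0 (.w i) → V 1 (.w j) → i = j + 1 ∨ j = i + 1 := by
    intro i j hi hj
    have h2 : ¬ S (.w i) (.w j) := fun h => h0 _ (hxw _) hi _ h hj
    have h3 : ¬ S (.w j) (.w i) := fun h => h1 _ (hxw _) hj _ h hi
    simp at h2 h3
    omega
  obtain ⟨j, rfl⟩ := w0 d (S_trans (S_trans hx1 ys2) hd) hd0
  obtain ⟨c, rfl⟩ : ∃ c, s2 = .w c := by
    cases s2 with
    | top => exact absurd hd (top_w _)
    | w i => exact ⟨i, rfl⟩
    | f q => exact absurd hs1 (hs2' _ (f_w _ _))
  have e1 : ¬ S (.w c) (.w i1) := fun h => hs2' _ h hs1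
  have e2 : c ≠ j := by rintro rfl; exact hs2 hd0
  have e3 := inc _ _ hd0 hs1
  rw [w_w] at hd e1
  have e4 : i1 = j + 1 := by omega
  have e5 : c = j + 2 := by omega
  subst e4 e5
  have v0 : ∀ z, S x z → (V 0 z ↔ z = .w j) := by
    intro z hz
    constructor
    · intro h2
      obtain ⟨i, rfl⟩ := w0 z hz h2
      rcases inc _ _ h2 hs1 with h3 | h3
      · exact absurd h2 (by rw [h3]; exact hs2)
      · congr 1; omega
    · rintro rfl; exact hd0
  have v1 : ∀ z, S x z → (V 1 z ↔ z = .w (j + 1)) := by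
    intro z hz
    constructor
    · intro h2
      obtain ⟨i, rfl⟩ := w1 z hz h2
      rcases inc _ _ hd0 h2 with h3 | h3
      · exact absurd h2 (hs2' _ (by rw [w_w]; omega))
      · rw [h3]
    · rintro rfl; exact hs1
  refine ⟨hxw, j, ?_⟩
  have see : ∀ (P : G → Prop) (n : ℕ), (∀ z, S x z → (P z ↔ z = .w n)) → ∀ z, S x z →
      ((∃ y, S z y ∧ P y) ↔ S z (.w n)) := by
    intro P n hP z hz
    constructor
    · rintro ⟨y, hy, hPy⟩
      rw [(hP y (S_trans hz hy)).1 hPy] at hy
      exact hy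
    · exact fun h => ⟨_, h, (hP _ (hxw _)).2 rfl⟩
  intro m
  induction m using Nat.strong_induction_on with
  | _ m ih =>
    match m, ih with
    | 0, _ => exact v0
    | 1, _ => exact v1
    | 2, _ =>
      intro z hz
      simp only [sig, sat_con, sat_neg, sat_dia, sat_var]
      rw [v0 z hz, see _ _ v0 z hz, see _ _ v1 z hz]
      cases z <;> simp <;> omega
    | m + 3, ih =>
      intro z hz
      have a1 := ih (m + 1) (by omega)
      have a2 := ih (m + 2) (by omega)
      have a0 := ih m (by omega)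
      simp only [sig, sat_con, sat_neg, sat_dia]
      rw [a1 z hz, see _ _ a1 z hz, see _ _ a0 z hz, see _ _ a2 z hz]
      cases z <;> simp <;> omega

lemma mem1 (m : ℕ) : Form.imp beta (dia (sig m)) ∈ Log S := by
  intro V x
  rw [sat_imp]
  intro h
  obtain ⟨hw, a, ha⟩ := key h
  rw [sat_dia]
  exact ⟨_, hw (a + m), (ha m _ (hw _)).2 rfl⟩

lemma mem2 (m m' : ℕ) (hm : m ≠ m') : Form.imp beta (neg (dia (con (sig m) (sig m')))) ∈ Log S := by
  intro V x
  rw [sat_imp]
  intro h
  obtain ⟨hw, a, ha⟩ := key h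
  rw [sat_neg, sat_dia]
  rintro ⟨y, hy, hy2⟩
  rw [sat_con, ha m y hy, ha m' y hy] at hy2
  have := hy2.1.symm.trans hy2.2
  rw [G.w.injEq] at this
  omega

lemma not_mem : neg beta ∉ Log S := by
  intro h
  have h1 := h (fun i x => match i with
    | 0 => x = .w 0
    | 1 => x = .w 1
    | 2 => x = .f ⟨(0, 2), by norm_num⟩
    | 3 => x = .f ⟨(1, 1), by norm_num⟩
    | 4 => x = .f ⟨(2, 0), by norm_num⟩
    | _ => False) (.f ⟨(0, 0), by norm_num⟩)
  apply h1
  simp only [beta, sig, sat_con, sat_box, sat_imp, sat_neg, sat_dia, sat_var]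
  refine ⟨?_, ?_, ⟨.f ⟨(0, 2), by norm_num⟩, by simp, ?_⟩, ⟨.f ⟨(1, 1), by norm_num⟩, by simp, ?_⟩,
    ⟨.f ⟨(2, 0), by norm_num⟩, by simp, ?_⟩⟩
  · rintro y - rfl ⟨z, hz, rfl⟩
    simp at hz
  · rintro y - rfl ⟨z, hz, rfl⟩
    simp at hz
  · simp only [exists_eq_right, f_w, true_and]
    refine ⟨by simp, by simp, .w 2, by simp, by simp, by simp⟩
  · simp
  · simp

lemma S_antisymm (x y : G) (h1 : S x y) (h2 : S y x) : x = y := by
  cases x with
  | top =>
    cases y with
    | top => rfl
    | w m => exact absurd h1 (top_w _)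
    | f q => exact absurd h1 (top_f _)
  | w n =>
    cases y with
    | top => exact absurd h2 (top_w _)
    | w m => rw [w_w] at h1 h2; congr 1; omega
    | f q => exact absurd h1 (w_f _ _)
  | f p =>
    cases y with
    | top => exact absurd h2 (top_f _)
    | w m => exact absurd h2 (w_f _ _)
    | f q =>
      rw [f_f] at h1 h2
      congr 1
      exact Subtype.ext (Prod.ext (by omega) (by omega))

lemma countable_G : Countable G := by
  let e : G → ℕ × ℕ × ℕ := fun x => match x with
    | .top => (0, 0, 0)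
    | .w n => (1, n, 0)
    | .f p => (2, p.1.1, p.1.2)
  have he : Function.Injective e := by
    intro x y h
    cases x <;> cases y <;> simp [e] at h ⊢
    · exact h
    · exact Subtype.ext h
  exact he.countable

/-- There is a normal modal logic `L` which contains the logic of `(ω^n, ⪯)` for every `n ≥ 2` and
which does not have the finite model property. It is the logic of a countable partial order. -/
theorem result : ∃ L : Set Form, Normal L ∧
    (∀ n : ℕ, 2 ≤ n → Log (fun x y : Fin n → ℕ => ∀ i, x i ≤ y i) ⊆ L) ∧ ¬ FMP L ∧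
    ∃ (W : Type) (_ : Countable W) (R : W → W → Prop), (∀ x, R x x) ∧
      (∀ x y z, R x y → R y z → R x z) ∧ (∀ x y, R x y → R y x → x = y) ∧ L = Log R := by
  refine ⟨Log S, normal_log S, fun n hn => log_power (n := n) hn, ?_, G, countable_G, S, S_refl,
    fun _ _ _ => S_trans, S_antisymm, rfl⟩
  intro h
  obtain ⟨W, hW, R, hR, hb⟩ := h _ not_mem
  apply hb
  intro V x hx
  have h1 : ∀ m, ∃ y, R x y ∧ Sat R V y (sig m) := fun m => by
    have := hR (mem1 m) V x
    rw [sat_imp] at this
    exact sat_dia.1 (this hx)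
  choose y hy1 hy2 using h1
  have hinj : Function.Injective y := by
    intro m m' hmm
    by_contra hne
    have h2 := hR (mem2 m m' hne) V x
    rw [sat_imp] at h2
    refine sat_neg.1 (h2 hx) (sat_dia.2 ⟨y m, hy1 m, sat_con.2 ⟨hy2 m, ?_⟩⟩)
    rw [hmm]
    exact hy2 m'
  exact not_injective_infinite_finite y hinj

end Pool.Agent.Results.MP_1909e4_lc.NoFMP
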